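import Mathlib

set_option autoImplicit false

open Polynomial Finset

namespace Pool.Agent.Results.MP_ecbd44_co.HankelDivisibility

/-- `H d n` is the polynomial `H_d(n,x) ∈ ℤ[x]` of the problem:
`H_d(n,x) = x ^ n` for `n < d`, and
`H_d(n,x) = x * H_d(n-1,x) + (n-1)(n-2)⋯(n-d+1) * H_d(n-d,x)` for `n ≥ d`.
(For the meaningless value `d = 0`, excluded in the theorem, we put `x ^ n`.) -/
noncomputable def H (d : ℕ) (n : ℕ) : ℤ[X] :=
  if n < d ∨ d = 0 then X ^ n
  else X * H d (n - 1) + (∏ k ∈ Finset.Icc 1 (d - 1), ((n : ℤ[X]) - (k : ℤ[X]))) * H d (n - d)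
termination_by n
decreasing_by all_goals omega

section abstract

variable {R : Type*} [CommRing R]

/-- The linear functional on `R[y]` sending `y ^ n` to `h n`. -/
noncomputable def Lf (h : ℕ → R) : R[X] →ₗ[R] R :=
  Polynomial.lsum (fun n => LinearMap.smulRight (LinearMap.id : R →ₗ[R] R) (h n))

theorem Lf_monomial (h : ℕ → R) (n : ℕ) (a : R) : Lf h (monomial n a) = a * h n := by
  simp [Lf, Polynomial.sum_monomial_index]

theorem Lf_X_pow (h : ℕ → R) (n : ℕ) : Lf h (X ^ n) = h n := by
  rw [← monomial_one_right_eq_X_pow, Lf_monomial, one_mul]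

theorem Lf_rec (h : ℕ → R) (x : R) (e : ℕ)
    (hrec : ∀ n, h (n + 1) = x * h n + (n.descFactorial e : R) * h (n - e)) (f : R[X]) :
    Lf h ((X - C x) * f) = Lf h (derivative^[e] f) := by
  induction f using Polynomial.induction_on' with
  | add p q hp hq =>
    rw [mul_add, map_add, hp, hq, ← map_add, ← iterate_map_add derivative]
  | monomial n a =>
    have h1 : (monomial n a : R[X]) = a • X ^ n := by
      rw [smul_X_eq_monomial]
    rw [h1, Polynomial.iterate_derivative_smul, iterate_derivative_X_pow_eq_smul, mul_smul_comm,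
      map_smul, map_smul, map_smul, Lf_X_pow, sub_mul, map_sub, ← pow_succ', Lf_X_pow,
      ← smul_eq_C_mul, map_smul, Lf_X_pow, hrec n]
    simp only [smul_eq_mul]
    ring

/-- Monic polynomials adapted to the functional. -/
noncomputable def pp (x : R) (e : ℕ) : ℕ → R[X]
  | 0 => 1
  | i + 1 => (X - C x) * pp x e i - derivative^[e] (pp x e i)

theorem derivative_pp (x : R) (e : ℕ) (i : ℕ) :
    derivative (pp x e i) = (i : R) • pp x e (i - 1) := by
  induction i with
  | zero => simp [pp]
  | succ i ih =>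
    rw [pp, derivative_sub, derivative_mul, ← Function.iterate_succ_apply' derivative,
      Function.iterate_succ_apply, ih, iterate_derivative_smul]
    cases i with
    | zero => simp [pp]
    | succ i =>
      simp only [Nat.add_sub_cancel]
      rw [pp]
      simp only [derivative_sub, derivative_X, derivative_C, sub_zero, one_mul, smul_eq_C_mul]
      push_cast
      simp only [C_add, C_1]
      ring

theorem iterate_derivative_pp (x : R) (e : ℕ) (i k : ℕ) :
    derivative^[k] (pp x e i) = (i.descFactorial k : R) • pp x e (i - k) := by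
  induction k with
  | zero => simp
  | succ k ih =>
    rw [Function.iterate_succ_apply', ih, derivative_smul, derivative_pp, smul_smul,
      Nat.descFactorial_succ, Nat.sub_sub]
    push_cast
    ring_nf

theorem pp_natDegree_monic [Nontrivial R] (x : R) (e : ℕ) (he : 1 ≤ e) (i : ℕ) :
    (pp x e i).natDegree = i ∧ (pp x e i).Monic := by
  induction i with
  | zero => simp [pp]
  | succ i ih =>
    obtain ⟨h1, h2⟩ := ih
    have hm : ((X - C x) * pp x e i).Monic := (monic_X_sub_C x).mul h2
    have hd : ((X - C x) * pp x e i).natDegree = i + 1 := by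
      rw [(monic_X_sub_C x).natDegree_mul h2, natDegree_X_sub_C, h1, add_comm]
    have hdd : ((X - C x) * pp x e i).degree = ((i + 1 : ℕ) : WithBot ℕ) := by
      rw [degree_eq_natDegree hm.ne_zero, hd]
    have hlt : (derivative^[e] (pp x e i)).degree < ((X - C x) * pp x e i).degree := by
      rw [hdd]
      refine lt_of_le_of_lt degree_le_natDegree ?_
      have := natDegree_iterate_derivative (pp x e i) e
      rw [h1] at this
      exact_mod_cast (by omega : (derivative^[e] (pp x e i)).natDegree < i + 1)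
    rw [pp]
    refine ⟨?_, hm.sub_of_left hlt⟩
    rw [natDegree_sub_eq_left_of_natDegree_lt, hd]
    rw [hd]
    have := natDegree_iterate_derivative (pp x e i) e
    rw [h1] at this
    omega

theorem key (h : ℕ → R) (x : R) (e : ℕ) (h0 : h 0 = 1)
    (hrec : ∀ n, h (n + 1) = x * h n + (n.descFactorial e : R) * h (n - e)) (j : ℕ) :
    ∀ i, ∃ c : ℤ, Lf h (pp x e i * (X - C x) ^ j) = (((i.factorial : ℤ) * c : ℤ) : R) := by
  induction j using Nat.strong_induction_on with
  | _ j ih =>
    intro i
    cases j with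
    | zero =>
      cases i with
      | zero =>
        refine ⟨1, ?_⟩
        rw [pp, pow_zero, mul_one, ← pow_zero (X : R[X]), Lf_X_pow, h0]
        simp
      | succ i =>
        refine ⟨0, ?_⟩
        rw [pp, pow_zero, mul_one, map_sub, Lf_rec h x e hrec, sub_self]
        simp
    | succ j =>
      have h1 : pp x e i * (X - C x) ^ (j + 1) = (X - C x) * (pp x e i * (X - C x) ^ j) := by
        ring
      rw [h1, Lf_rec h x e hrec, iterate_derivative_mul, map_sum]
      have h2 : ∀ k ∈ range e.succ, ∃ c : ℤ,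
          Lf h (e.choose k • (derivative^[e - k] (pp x e i) * derivative^[k] ((X - C x) ^ j)))
            = (((i.factorial : ℤ) * c : ℤ) : R) := by
        intro k _
        obtain ⟨c, hc⟩ := ih (j - k) (by omega) (i - (e - k))
        rw [iterate_derivative_pp, iterate_derivative_X_sub_pow, smul_mul_assoc, mul_smul_comm,
          map_nsmul, map_smul, map_nsmul, hc]
        by_cases hik : e - k ≤ i
        · refine ⟨e.choose k * j.descFactorial k * c, ?_⟩
          rw [← Nat.factorial_mul_descFactorial hik]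
          simp only [nsmul_eq_mul, smul_eq_mul]
          push_cast
          ring
        · refine ⟨0, ?_⟩
          rw [Nat.descFactorial_of_lt (by omega : i < e - k)]
          simp
      choose! c hc using h2
      refine ⟨∑ k ∈ range e.succ, c k, ?_⟩
      rw [sum_congr rfl hc, mul_sum]
      push_cast
      rfl

theorem Lf_mul (h : ℕ → R) (n : ℕ) (p q : R[X]) (hp : p.natDegree < n) (hq : q.natDegree < n) :
    Lf h (p * q) = ∑ k : Fin n, (∑ l : Fin n, p.coeff l * h (l + k)) * q.coeff k := by
  conv_lhs => rw [p.as_sum_range' n hp, q.as_sum_range' n hq]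
  rw [sum_mul_sum, sum_comm, map_sum, ← Fin.sum_univ_eq_sum_range
    (fun k => Lf h (∑ l ∈ range n, (monomial l) (p.coeff l) * (monomial k) (q.coeff k)))]
  refine sum_congr rfl fun k _ => ?_
  rw [map_sum, sum_mul, ← Fin.sum_univ_eq_sum_range
    (fun l => Lf h ((monomial l) (p.coeff l) * (monomial (k : ℕ)) (q.coeff k)))]
  refine sum_congr rfl fun l _ => ?_
  rw [monomial_mul_monomial, Lf_monomial]
  ring

theorem det_eq [Nontrivial R] (h : ℕ → R) (x : R) (e : ℕ) (he : 1 ≤ e) (h0 : h 0 = 1)
    (hrec : ∀ n, h (n + 1) = x * h n + (n.descFactorial e : R) * h (n - e)) (n : ℕ) :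
    ∃ c : ℤ, (Matrix.of fun i j : Fin n => h (i + j)).det =
      (((∏ i ∈ range n, (i.factorial : ℤ)) * c : ℤ) : R) := by
  set P : Matrix (Fin n) (Fin n) R := Matrix.of fun k i : Fin n => (pp x e i).coeff k with hP
  set Q : Matrix (Fin n) (Fin n) R := Matrix.of fun k j : Fin n => ((X - C x) ^ (j : ℕ)).coeff k
    with hQ
  set M : Matrix (Fin n) (Fin n) R := Matrix.of fun i j : Fin n => h (i + j) with hM
  have hPdet : P.det = 1 :=
    Matrix.det_matrixOfPolynomials (fun i => pp x e i) (fun i => (pp_natDegree_monic x e he i).1)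
      (fun i => (pp_natDegree_monic x e he i).2)
  have hQdet : Q.det = 1 :=
    Matrix.det_matrixOfPolynomials (fun j => (X - C x) ^ (j : ℕ))
      (fun j => by rw [(monic_X_sub_C x).natDegree_pow, natDegree_X_sub_C, mul_one])
      (fun j => (monic_X_sub_C x).pow j)
  choose c hc using fun (i j : ℕ) => key h x e h0 hrec j i
  have hN : P.transpose * M * Q =
      Matrix.diagonal (fun i : Fin n => (((i : ℕ).factorial : ℤ) : R)) *
        (Matrix.of fun i j : Fin n => c i j).map (Int.cast : ℤ → R) := by
    ext i j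
    rw [Matrix.diagonal_mul, Matrix.mul_apply]
    simp only [Matrix.mul_apply, Matrix.transpose_apply, Matrix.of_apply, Matrix.map_apply,
      hP, hQ, hM]
    rw [← Lf_mul h n (pp x e i) ((X - C x) ^ (j : ℕ))
      (by rw [(pp_natDegree_monic x e he i).1]; exact i.2)
      (by rw [(monic_X_sub_C x).natDegree_pow, natDegree_X_sub_C, mul_one]; exact j.2), hc]
    push_cast
    rfl
  have hdet : M.det = (P.transpose * M * Q).det := by
    rw [Matrix.det_mul, Matrix.det_mul, Matrix.det_transpose, hPdet, hQdet, one_mul, mul_one]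
  refine ⟨(Matrix.of fun i j : Fin n => c i j).det, ?_⟩
  rw [hdet, hN, Matrix.det_mul, Matrix.det_diagonal]
  push_cast
  rw [← Fin.prod_univ_eq_prod_range (fun i => ((i.factorial : ℕ) : R))]

end abstract

theorem H_of_lt (d n : ℕ) (h : n < d) : H d n = X ^ n := by
  rw [H, if_pos (Or.inl h)]

theorem H_of_le (d n : ℕ) (hd : 1 ≤ d) (h : d ≤ n) :
    H d n = X * H d (n - 1) +
      (∏ k ∈ Finset.Icc 1 (d - 1), ((n : ℤ[X]) - (k : ℤ[X]))) * H d (n - d) := by
  rw [H, if_neg (by omega)]

theorem prod_eq (e n : ℕ) (h : e ≤ n) :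
    (∏ k ∈ Finset.Icc 1 e, (((n + 1 : ℕ) : ℤ[X]) - (k : ℤ[X]))) = (n.descFactorial e : ℤ[X]) := by
  induction e with
  | zero => simp
  | succ e ih =>
    rw [Finset.prod_Icc_succ_top (by omega), ih (by omega), Nat.descFactorial_succ, Nat.cast_mul,
      Nat.cast_sub (by omega)]
    push_cast
    ring

theorem H_rec (e n : ℕ) (he : 1 ≤ e) :
    H (e + 1) (n + 1) = X * H (e + 1) n + (n.descFactorial e : ℤ[X]) * H (e + 1) (n - e) := by
  by_cases h : n < e
  · rw [H_of_lt _ _ (by omega), H_of_lt _ _ (by omega : n < e + 1),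
      Nat.descFactorial_of_lt h]
    simp [pow_succ']
  · rw [H_of_le _ _ (by omega) (by omega), Nat.add_sub_cancel, Nat.add_sub_cancel,
      prod_eq e n (by omega), Nat.add_sub_add_right]

/-- For every integer `d ≥ 2` and every `n ≥ 1` the determinant of the Hankel matrix
`[H_d(i+j,x)]_{0 ≤ i,j ≤ n-1}` is a constant integer `c` (a constant polynomial), and `c` is divisible by
`∏_{i=0}^{n-1} i!`. -/
theorem result (d n : ℕ) (hd : 2 ≤ d) (_hn : 1 ≤ n) :
    ∃ c : ℤ, (Matrix.of fun i j : Fin n => H d ((i : ℕ) + (j : ℕ))).det = C c ∧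
      (∏ i ∈ Finset.range n, (i.factorial : ℤ)) ∣ c := by
  obtain ⟨e, rfl⟩ : ∃ e, d = e + 1 := ⟨d - 1, by omega⟩
  obtain ⟨c, hc⟩ := det_eq (H (e + 1)) X e (by omega)
    (by rw [H_of_lt _ _ (by omega), pow_zero]) (fun n => H_rec e n (by omega)) n
  refine ⟨(∏ i ∈ Finset.range n, (i.factorial : ℤ)) * c, ?_, dvd_mul_right _ _⟩
  rw [hc]
  exact (eq_intCast (C : ℤ →+* ℤ[X]) _).symm

end Pool.Agent.Results.MP_ecbd44_co.HankelDivisibility
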